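import Pool.Agent.Helper34.PM.Defs

/-!
# meas_pi, block S: Siegel's lemma
-/

set_option autoImplicit false

namespace Pool.Agent.Helper95.PM

open Polynomial Finset Pool.Agent.PM

attribute [local instance] Matrix.seminormedAddCommGroup

theorem one_le_Bq {M L T S : ℕ} (hM : 0 < M) (hL : 0 < L) (hS : 0 < S) : 1 ≤ Bq M L T S := by
  have hM1 : (1 : ℝ) ≤ M := by exact_mod_cast hM
  have hL1 : (1 : ℝ) ≤ L := by exact_mod_cast hL
  have hS1 : (1 : ℝ) ≤ S := by exact_mod_cast hS
  have hT0 : (0 : ℝ) ≤ T := Nat.cast_nonneg T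
  unfold Bq
  have h1 : (1 : ℝ) ≤ (4 * L * M) ^ T := one_le_pow₀ (by nlinarith)
  have h2 : (1 : ℝ) ≤ (S : ℝ) ^ M := one_le_pow₀ hS1
  have h3 : (1 : ℝ) ≤ 2 * (T + 1) := by linarith
  have h4 : (1 : ℝ) ≤ 2 * (T + 1) * (4 * L * M) ^ T := one_le_mul_of_one_le_of_one_le h3 h1
  exact one_le_mul_of_one_le_of_one_le h4 h2

/-- Siegel's lemma, with the two facts about `qq` as hypotheses -/
theorem siegel_of (hq1 : ∀ a b t s, (qq a b t s).natDegree ≤ a)
    (hq2 : ∀ {M L T S : ℕ} {a b t s : ℕ}, a < M → b < L → t < T → s < S → ∀ i : ℕ,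
      |((qq a b t s).coeff i : ℝ)| ≤ Bq M L T S)
    {M L T S : ℕ} (hM : 0 < M) (hL : 0 < L) (hS : 0 < S) (hT : 0 < T)
    (h : 4 * S * T ≤ M * L) : ∃ v : ℕ → ℕ → ℤ[X],
      (∃ a < M, ∃ b < L, v a b ≠ 0) ∧ (∀ a b, (v a b).natDegree < M) ∧
      (∀ a b i, |((v a b).coeff i : ℝ)| ≤ M * L * M * Bq M L T S) ∧
      ∀ s < S, ∀ t < T, Q M L v t s = 0 := by
  classical
  have hB1 : 1 ≤ Bq M L T S := one_le_Bq hM hL hS
  have hB0 : 0 ≤ Bq M L T S := zero_le_one.trans hB1
  -- the system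
  set A : Matrix ((Fin S × Fin T) × Fin (2 * M)) ((Fin M × Fin L) × Fin M) ℤ :=
    fun r c => (X ^ (c.2 : ℕ) * qq c.1.1 c.1.2 r.1.2 r.1.1).coeff r.2 with hA
  have hcα : Fintype.card ((Fin S × Fin T) × Fin (2 * M)) = S * T * (2 * M) := by simp
  have hcβ : Fintype.card ((Fin M × Fin L) × Fin M) = M * L * M := by simp
  have h2m : 2 * (S * T * (2 * M)) ≤ M * L * M := by
    calc 2 * (S * T * (2 * M)) = 4 * S * T * M := by ring
      _ ≤ M * L * M := Nat.mul_le_mul_right M h
  have hpos : 0 < S * T * (2 * M) := by positivity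
  have hlt : Fintype.card ((Fin S × Fin T) × Fin (2 * M)) < Fintype.card ((Fin M × Fin L) × Fin M) := by
    rw [hcα, hcβ]; omega
  have hm : 0 < Fintype.card ((Fin S × Fin T) × Fin (2 * M)) := by rw [hcα]; exact hpos
  obtain ⟨τ, hτ0, hτA, hτn⟩ := Int.Matrix.exists_ne_zero_int_vec_norm_le A hlt hm
  have hAn : ‖A‖ ≤ Bq M L T S := by
    rw [Matrix.norm_le_iff hB0]
    intro r c
    rw [Int.norm_eq_abs, hA]
    simp only [coeff_X_pow_mul']
    split_ifs with hc
    · exact hq2 c.1.1.2 c.1.2.2 r.1.2.2 r.1.1.2 _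
    · simpa using hB0
  have hτ : ‖τ‖ ≤ M * L * M * Bq M L T S := by
    refine hτn.trans ?_
    rw [hcα, hcβ]
    have hn1 : (1 : ℝ) ≤ ((M * L * M : ℕ) : ℝ) := by
      have : 0 < M * L * M := by positivity
      exact_mod_cast this
    have hbase : (1 : ℝ) ≤ ((M * L * M : ℕ) : ℝ) * max 1 ‖A‖ :=
      one_le_mul_of_one_le_of_one_le hn1 (le_max_left _ _)
    have hexp : ((S * T * (2 * M) : ℕ) : ℝ) / (((M * L * M : ℕ) : ℝ) - ((S * T * (2 * M) : ℕ) : ℝ)) ≤ 1 := by
      have h1 : (2 : ℝ) * ((S * T * (2 * M) : ℕ) : ℝ) ≤ ((M * L * M : ℕ) : ℝ) := by exact_mod_cast h2m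
      have h2 : (0 : ℝ) < ((S * T * (2 * M) : ℕ) : ℝ) := by exact_mod_cast hpos
      rw [div_le_one (by linarith)]
      linarith
    calc (((M * L * M : ℕ) : ℝ) * max 1 ‖A‖) ^
          (((S * T * (2 * M) : ℕ) : ℝ) / (((M * L * M : ℕ) : ℝ) - ((S * T * (2 * M) : ℕ) : ℝ)))
        ≤ (((M * L * M : ℕ) : ℝ) * max 1 ‖A‖) ^ (1 : ℝ) := Real.rpow_le_rpow_of_exponent_le hbase hexp
      _ = ((M * L * M : ℕ) : ℝ) * max 1 ‖A‖ := Real.rpow_one _
      _ ≤ ((M * L * M : ℕ) : ℝ) * Bq M L T S := by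
          apply mul_le_mul_of_nonneg_left (max_le hB1 hAn) (by positivity)
      _ = _ := by push_cast; ring
  -- the polynomials
  set v : ℕ → ℕ → ℤ[X] := fun a b => if hab : a < M ∧ b < L then
    ∑ k : Fin M, monomial (k : ℕ) (τ ((⟨a, hab.1⟩, ⟨b, hab.2⟩), k)) else 0 with hv
  have hvc : ∀ (a b i : ℕ) (ha : a < M) (hb : b < L) (hi : i < M),
      (v a b).coeff i = τ ((⟨a, ha⟩, ⟨b, hb⟩), ⟨i, hi⟩) := by
    intro a b i ha hb hi
    rw [hv]
    simp only [ha, hb, and_self, dite_true]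
    rw [finset_sum_coeff, Finset.sum_eq_single (⟨i, hi⟩ : Fin M)]
    · rw [coeff_monomial, if_pos rfl]
    · intro k _ hk
      rw [coeff_monomial, if_neg]
      intro h0
      apply hk
      exact Fin.ext h0
    · intro h0
      exact absurd (Finset.mem_univ _) h0
  have hvd : ∀ a b, (v a b).natDegree < M := by
    intro a b
    rw [hv]
    dsimp only
    split_ifs with hab
    · have h1 : (∑ k : Fin M, monomial (k : ℕ) (τ ((⟨a, hab.1⟩, ⟨b, hab.2⟩), k))).natDegree ≤ M - 1 := by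
        apply natDegree_sum_le_of_forall_le
        intro k _
        refine (natDegree_monomial_le _).trans ?_
        have := k.2
        omega
      omega
    · simpa using hM
  refine ⟨v, ?_, hvd, ?_, ?_⟩
  · -- not all zero
    by_contra hcon
    push Not at hcon
    apply hτ0
    funext c
    obtain ⟨⟨a, b⟩, k⟩ := c
    have h1 := hcon a a.2 b b.2
    have h2 := hvc a b k a.2 b.2 k.2
    rw [h1, coeff_zero] at h2
    exact h2.symm
  · intro a b i
    by_cases hab : a < M ∧ b < L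
    · by_cases hi : i < M
      · rw [hvc a b i hab.1 hab.2 hi]
        refine le_trans ?_ hτ
        have := norm_le_pi_norm τ ((⟨a, hab.1⟩, ⟨b, hab.2⟩), ⟨i, hi⟩)
        rwa [Int.norm_eq_abs] at this
      · rw [coeff_eq_zero_of_natDegree_lt (lt_of_lt_of_le (hvd a b) (not_lt.1 hi))]
        simp only [Int.cast_zero, abs_zero]
        positivity
    · have : v a b = 0 := by rw [hv]; simp only [hab, dite_false]
      rw [this, coeff_zero]
      simp only [Int.cast_zero, abs_zero]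
      positivity
  · intro s hs t ht
    ext i
    rw [coeff_zero]
    unfold Q
    rw [finset_sum_coeff]
    simp_rw [finset_sum_coeff]
    have hterm : ∀ a ∈ range M, ∀ b ∈ range L, (v a b * qq a b t s).coeff i =
        ∑ k ∈ range M, (v a b).coeff k * (X ^ k * qq a b t s).coeff i := by
      intro a _ b _
      conv_lhs => rw [(v a b).as_sum_range' M (hvd a b)]
      rw [Finset.sum_mul, finset_sum_coeff]
      refine Finset.sum_congr rfl fun k _ => ?_
      rw [← C_mul_X_pow_eq_monomial, mul_assoc, coeff_C_mul]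
    rw [Finset.sum_congr rfl fun a ha => Finset.sum_congr rfl fun b hb => hterm a ha b hb]
    by_cases hi : i < 2 * M
    · have h1 := congrFun hτA ((⟨s, hs⟩, ⟨t, ht⟩), ⟨i, hi⟩)
      simp only [Matrix.mulVec, dotProduct, Pi.zero_apply] at h1
      rw [Fintype.sum_prod_type, Fintype.sum_prod_type] at h1
      rw [← h1, Finset.sum_range]
      refine Finset.sum_congr rfl fun a _ => ?_
      rw [Finset.sum_range]
      refine Finset.sum_congr rfl fun b _ => ?_
      rw [Finset.sum_range]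
      refine Finset.sum_congr rfl fun k _ => ?_
      rw [hvc a b k a.2 b.2 k.2, hA, mul_comm]
    · refine Finset.sum_eq_zero fun a ha => Finset.sum_eq_zero fun b _ => Finset.sum_eq_zero fun k hk => ?_
      rw [Finset.mem_range] at ha hk
      rw [coeff_X_pow_mul']
      split_ifs with hc
      · rw [coeff_eq_zero_of_natDegree_lt (p := qq a b t s), mul_zero]
        have := hq1 a b t s
        omega
      · rw [mul_zero]

end Pool.Agent.Helper95.PM
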